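import Mathlib

set_option autoImplicit false

/-!
# A gap condition on right special words forces closure under reversal (MP_0ea415)

`Λ` is a factorial irreducible language over two letters with weights `w`, `|u|` the weight of `u`. If for any two right special words
`v a t`, `v' a' t` (`a ≠ a'` letters) `min |v a t| |v' a' t| < w false + w true + 2 |t|`, then `Λ` is closed under reversal.

PROOF. By the condition with `t` empty one letter `z` has right special words `… z` of weight `< w false + w true` only; so `e z^j`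
(`e` the other letter) is not right special and all inner runs of `z` have one length `q`. Let `ψ x = e`, `ψ y = z^q e` and
`Λ' = {u | e ψ(u) ∈ Λ}`. The condition holds for `Λ'` with the weights `w e` and `q w z + w e`. Every word `u` of `Λ` which contains `e`
is a factor of `e ψ(u')`, `u' ∈ Λ'` shorter than `u`; and the mirror image of `e ψ(u')` is `e ψ(mirror u')`.
-/

namespace Pool.Agent.H54.RV

/-- a right special word -/
def RS (Λ : Set (List Bool)) (u : List Bool) : Prop := u ++ [false] ∈ Λ ∧ u ++ [true] ∈ Λ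

/-- a factorial irreducible language over two letters -/
structure FI (Λ : Set (List Bool)) : Prop where
  fac : ∀ u v w, u ++ v ++ w ∈ Λ → v ∈ Λ
  irr : ∀ u ∈ Λ, ∀ w ∈ Λ, ∃ v, u ++ v ++ w ∈ Λ

/-- the weight of a word -/
def wt (w : Bool → ℕ) (u : List Bool) : ℕ := (u.map w).sum

/-- the gap condition -/
structure Gap (Λ : Set (List Bool)) (w : Bool → ℕ) : Prop where
  gap : ∀ (a : Bool) (t v v' : List Bool), RS Λ (v ++ a :: t) → RS Λ (v' ++ (!a) :: t) →
    min (wt w (v ++ a :: t)) (wt w (v' ++ (!a) :: t)) < w false + w true + 2 * wt w t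

/-- the block of the letter `b` -/
def bk (z : Bool) (q : ℕ) (b : Bool) : List Bool := (if b then List.replicate q z else []) ++ [!z]

/-- the substitution, preceded by the letter `e` -/
def ps (z : Bool) (q : ℕ) (u : List Bool) : List Bool := (!z) :: u.flatMap (bk z q)

/-- the derived language -/
def Der (Λ : Set (List Bool)) (z : Bool) (q : ℕ) : Set (List Bool) := {u | ps z q u ∈ Λ}

variable {Λ : Set (List Bool)} {z : Bool} {q : ℕ} {w : Bool → ℕ}

lemma FI.sub (h : FI Λ) {u v : List Bool} (hv : v ∈ Λ) (huv : u <:+: v) : u ∈ Λ := by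
  obtain ⟨s, t, rfl⟩ := huv
  exact h.fac s u t hv

lemma wt_nil (w : Bool → ℕ) : wt w [] = 0 := rfl

lemma wt_cons (w : Bool → ℕ) (a : Bool) (u : List Bool) : wt w (a :: u) = w a + wt w u := by
  simp [wt]

lemma wt_append (w : Bool → ℕ) (u v : List Bool) : wt w (u ++ v) = wt w u + wt w v := by
  simp [wt]

lemma wt_rep (w : Bool → ℕ) (j : ℕ) (a : Bool) : wt w (List.replicate j a) = j * w a := by
  simp [wt]

lemma ps_nil (z : Bool) (q : ℕ) : ps z q [] = [!z] := rfl

lemma ps_cons (z : Bool) (q : ℕ) (b : Bool) (u : List Bool) :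
    ps z q (b :: u) = ((!z) :: (if b then List.replicate q z else [])) ++ ps z q u := by
  simp [ps, bk]

lemma ps_append (z : Bool) (q : ℕ) (u v : List Bool) :
    ∃ s, ps z q (u ++ v) = s ++ ps z q v := by
  induction u with
  | nil => exact ⟨[], rfl⟩
  | cons b u ih =>
    obtain ⟨s, hs⟩ := ih
    exact ⟨((!z) :: (if b then List.replicate q z else [])) ++ s, by
      rw [List.cons_append, ps_cons, hs, List.append_assoc]⟩

lemma ps_snoc (z : Bool) (q : ℕ) (u : List Bool) (b : Bool) :
    ps z q (u ++ [b]) = ps z q u ++ bk z q b := by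
  simp [ps]

lemma ps_app (z : Bool) (q : ℕ) (u v : List Bool) :
    ps z q (u ++ v) = ps z q u ++ v.flatMap (bk z q) := by
  simp [ps]

/-- `ps u` ends with `e` -/
lemma ps_end (z : Bool) (q : ℕ) (u : List Bool) : ∃ s, ps z q u = s ++ [!z] := by
  rcases List.eq_nil_or_concat u with rfl | ⟨v, b, rfl⟩
  · exact ⟨[], rfl⟩
  · refine ⟨ps z q v ++ (if b then List.replicate q z else []), ?_⟩
    rw [List.concat_eq_append, ps_snoc, bk, List.append_assoc]

lemma wt_ps (w : Bool → ℕ) (z : Bool) (q : ℕ) (u : List Bool) :
    wt w (ps z q u) = w (!z) + wt (fun b => (if b then q * w z else 0) + w (!z)) u := by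
  induction u with
  | nil => simp [ps_nil, wt]
  | cons b u ih =>
    rw [ps_cons, wt_append, ih, wt_cons, wt_cons]
    cases b
    · simp [wt]
    · simp only [if_true, wt_rep]
      omega

lemma ps_rev (z : Bool) (q : ℕ) (u : List Bool) : (ps z q u).reverse = ps z q u.reverse := by
  induction u with
  | nil => rfl
  | cons b u ih =>
    rw [ps_cons, List.reverse_append, ih, List.reverse_cons, List.reverse_cons, ps_snoc, bk]
    cases b <;> simp

lemma len_ps_ge (z : Bool) (q : ℕ) (u : List Bool) : u.length + 1 ≤ (ps z q u).length := by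
  induction u with
  | nil => simp [ps_nil]
  | cons b u ih =>
    rw [ps_cons, List.length_append, List.length_cons, List.length_cons]
    omega

/-- a factor of `e ψ(v)` which contains `e` is a factor of `e ψ(u)`, `u` a short factor of `v` -/
lemma shrink (z : Bool) (q : ℕ) {x : List Bool} (hx : (!z) ∈ x) (n : ℕ) : ∀ v : List Bool, v.length ≤ n → x <:+: ps z q v →
    ∃ u, u <:+: v ∧ x <:+: ps z q u ∧ u.length < x.length := by
  induction n with
  | zero =>
    intro v hv h
    have h1 : v = [] := List.length_eq_zero_iff.1 (Nat.le_zero.1 hv)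
    subst h1
    exact ⟨[], List.infix_rfl, h, List.length_pos_of_mem hx⟩
  | succ n ih =>
    intro v hv h
    by_cases hlt : v.length < x.length
    · exact ⟨v, List.infix_rfl, h, hlt⟩
    have hx0 : 0 < x.length := List.length_pos_of_mem hx
    match v, hv, h, hlt with
    | [], _, _, hlt => exact (hlt (by simpa using hx0)).elim
    | b :: v2, hv, h, hlt =>
      -- if x is a factor of ps v2
      by_cases h2 : x <:+: ps z q v2
      · obtain ⟨u, hu1, hu2, hu3⟩ := ih v2 (by simpa using hv) h2
        exact ⟨u, hu1.trans (List.suffix_cons b v2).isInfix, hu2, hu3⟩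
      rcases List.eq_nil_or_concat (b :: v2) with h3 | ⟨v3, b', h3⟩
      · simp at h3
      rw [List.concat_eq_append] at h3
      by_cases h4 : x <:+: ps z q v3
      · have h5 : v3.length ≤ n := by
          have := congrArg List.length h3
          simp at this hv
          omega
        obtain ⟨u, hu1, hu2, hu3⟩ := ih v3 h5 h4
        refine ⟨u, hu1.trans ?_, hu2, hu3⟩
        rw [h3]
        exact (List.prefix_append v3 [b']).isInfix
      -- otherwise the occurrence is long
      exfalso
      obtain ⟨P, S, hPS⟩ := h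
      have hP : P.length < 1 + (if b then List.replicate q z else []).length := by
        by_contra hc
        push Not at hc
        apply h2
        rw [ps_cons] at hPS
        have e1 : ((!z) :: (if b then List.replicate q z else [])) <+: P := by
          have a1 : ((!z) :: (if b then List.replicate q z else [])) <+: P ++ x ++ S := by
            rw [hPS]; exact List.prefix_append _ _
          have a2 : P <+: P ++ x ++ S := by
            rw [List.append_assoc]; exact List.prefix_append _ _
          exact List.prefix_of_prefix_length_le a1 a2 (by simp only [List.length_cons]; omega)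
        obtain ⟨P', hP'⟩ := e1
        rw [← hP', List.append_assoc, List.append_assoc] at hPS
        have hPS' := List.append_cancel_left hPS
        exact ⟨P', S, by rw [List.append_assoc]; exact hPS'⟩
      have hS : S.length < 1 + (if b' then List.replicate q z else []).length := by
        by_contra hc
        push Not at hc
        apply h4
        rw [h3, ps_snoc] at hPS
        have e1 : bk z q b' <:+ S := by
          have a1 : bk z q b' <:+ P ++ x ++ S := by
            rw [hPS]; exact List.suffix_append _ _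
          have a2 : S <:+ P ++ x ++ S := List.suffix_append _ _
          exact List.suffix_of_suffix_length_le a1 a2 (by simp only [bk, List.length_append, List.length_singleton]; omega)
        obtain ⟨S', hS'⟩ := e1
        rw [← hS', ← List.append_assoc] at hPS
        have hPS' := List.append_cancel_right hPS
        exact ⟨P, S', hPS'⟩
      have hlen := congrArg List.length hPS
      simp only [List.length_append] at hlen
      -- length of v at least two or one
      match v2, h2, h3, hlt, hPS, hlen with
      | [], h2, h3, hlt, hPS, hlen =>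
        -- v = [b], x has length one
        have h6 : x.length = 1 := by simp at hlt; omega
        obtain ⟨c, hc⟩ := List.length_eq_one_iff.1 h6
        subst hc
        have hx' : (!z) = c := by simpa using hx
        exact h2 (by rw [ps_nil, hx'])
      | c :: v4, h2, h3, hlt, hPS, hlen =>
        obtain ⟨v5, hv5⟩ : ∃ v5, c :: v4 = v5 ++ [b'] := by
          rcases List.eq_nil_or_concat (c :: v4) with h7 | ⟨v5, b5, h7⟩
          · simp at h7
          rw [List.concat_eq_append] at h7
          refine ⟨v5, ?_⟩
          rw [h7] at h3 ⊢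
          have h8 : b :: (v5 ++ [b5]) = (b :: v5) ++ [b5] := rfl
          rw [h8] at h3
          have := List.append_inj_right' h3 rfl
          rw [this]
        rw [hv5, ps_cons, ps_snoc] at hlen
        simp only [List.length_append, List.length_cons, bk, List.length_nil] at hlen
        have h9 := len_ps_ge z q v5
        have h10 : (c :: v4).length = v5.length + 1 := by rw [hv5]; simp
        simp only [List.length_cons] at hlt h10
        omega

/-- inner runs -/
def Run1 (Λ : Set (List Bool)) (z : Bool) (q : ℕ) : Prop :=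
  ∀ j, (!z) :: (List.replicate j z ++ [!z]) ∈ Λ → j = 0 ∨ j = q

lemma run_ex (hG : Gap Λ w) (h : FI Λ) : ∃ z q, 0 < q ∧ Run1 Λ z q := by
  have h1 : ∃ z, ∀ v, RS Λ (v ++ [z]) → wt w (v ++ [z]) < w false + w true := by
    by_contra hc
    push Not at hc
    obtain ⟨v, hv1, hv2⟩ := hc false
    obtain ⟨v', hv1', hv2'⟩ := hc true
    have := hG.gap false [] v v' hv1 hv1'
    rw [wt_nil] at this
    rw [Bool.not_false, mul_zero, add_zero] at this
    exact absurd (le_min hv2 hv2') (not_le.2 this)
  obtain ⟨z, hz⟩ := h1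
  by_cases hj : ∃ j, 0 < j ∧ (!z) :: (List.replicate j z ++ [!z]) ∈ Λ
  · obtain ⟨q, hq, hqΛ⟩ := hj
    refine ⟨z, q, hq, fun j hjΛ => ?_⟩
    rcases Nat.eq_zero_or_pos j with h0 | h0
    · exact Or.inl h0
    right
    -- two different lengths give a heavy right special word
    have key : ∀ i k, 0 < i → i < k → (!z) :: (List.replicate i z ++ [!z]) ∈ Λ →
        (!z) :: (List.replicate k z ++ [!z]) ∈ Λ → False := by
      intro i k hi hik h2 h3
      obtain ⟨i', rfl⟩ : ∃ i', i = i' + 1 := ⟨i - 1, by omega⟩
      have e1 : (!z) :: List.replicate (i' + 1) z = ((!z) :: List.replicate i' z) ++ [z] := by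
        rw [List.replicate_succ', List.cons_append]
      have h4 : ((!z) :: List.replicate (i' + 1) z) ++ [!z] ∈ Λ := h2
      have h5 : ((!z) :: List.replicate (i' + 1) z) ++ [z] ∈ Λ := by
        refine h.sub h3 (List.IsPrefix.isInfix ?_)
        obtain ⟨d, hd⟩ : ∃ d, k = ((i' + 1) + 1) + d := ⟨k - (i' + 1 + 1), by omega⟩
        refine ⟨List.replicate d z ++ [!z], ?_⟩
        have e2 : List.replicate k z = List.replicate (i' + 1) z ++ [z] ++ List.replicate d z := by
          rw [hd, List.replicate_add, ← List.replicate_succ']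
        rw [e2]
        simp
      have h6 : RS Λ (((!z) :: List.replicate i' z) ++ [z]) := by
        rw [← e1]
        cases z
        · exact ⟨h5, h4⟩
        · exact ⟨h4, h5⟩
      have h7 := hz _ h6
      rw [← e1, wt_cons, wt_rep] at h7
      have h8 : w z ≤ (i' + 1) * w z := Nat.le_mul_of_pos_left _ (Nat.succ_pos _)
      cases z <;> simp at h7 h8 <;> omega
    rcases lt_trichotomy j q with hlt | heq | hgt
    · exact (key j q h0 hlt hjΛ hqΛ).elim
    · exact heq
    · exact (key q j hq hgt hqΛ hjΛ).elim
  · push Not at hj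
    refine ⟨z, 1, one_pos, fun j hjΛ => ?_⟩
    rcases Nat.eq_zero_or_pos j with h0 | h0
    · exact Or.inl h0
    · exact (hj j h0 hjΛ).elim

lemma run_split (z : Bool) (s : List Bool) :
    (∃ j, s = List.replicate j z) ∨ ∃ j s', s = List.replicate j z ++ (!z) :: s' := by
  induction s with
  | nil => exact Or.inl ⟨0, rfl⟩
  | cons a s ih =>
    by_cases ha : a = z
    · subst ha
      rcases ih with ⟨j, hj⟩ | ⟨j, s', hj⟩
      · exact Or.inl ⟨j + 1, by rw [hj, List.replicate_succ]⟩
      · exact Or.inr ⟨j + 1, s', by rw [hj, List.replicate_succ, List.cons_append]⟩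
    · have h1 : a = !z := by cases a <;> cases z <;> simp_all
      exact Or.inr ⟨0, s, by rw [h1]; rfl⟩

/-- a word between two letters `e` is desubstituted -/
lemma desub (h : FI Λ) (hr : Run1 Λ z q) (n : ℕ) : ∀ s : List Bool, s.length ≤ n → (!z) :: (s ++ [!z]) ∈ Λ →
    ∃ v, (!z) :: (s ++ [!z]) = ps z q v := by
  have hblk : ∀ j, (!z) :: (List.replicate j z ++ [!z]) ∈ Λ → ∃ b : Bool, List.replicate j z = (if b then List.replicate q z else []) := by
    intro j hj
    rcases hr j hj with h0 | h0
    · exact ⟨false, by rw [h0]; rfl⟩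
    · exact ⟨true, by rw [h0]; rfl⟩
  induction n with
  | zero =>
    intro s hs hsΛ
    have h1 : s = [] := List.length_eq_zero_iff.1 (Nat.le_zero.1 hs)
    subst h1
    exact ⟨[false], rfl⟩
  | succ n ih =>
    intro s hs hsΛ
    rcases run_split z s with ⟨j, hj⟩ | ⟨j, s', hj⟩
    · rw [hj] at hsΛ ⊢
      obtain ⟨b, hb⟩ := hblk j hsΛ
      exact ⟨[b], by rw [ps_cons, ps_nil, hb]; rfl⟩
    · have e1 : (!z) :: (s ++ [!z]) = ((!z) :: List.replicate j z) ++ ((!z) :: (s' ++ [!z])) := by
        rw [hj]; simp
      have h2 : (!z) :: (s' ++ [!z]) ∈ Λ := h.sub hsΛ (by rw [e1]; exact (List.suffix_append _ _).isInfix)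
      have h3 : (!z) :: (List.replicate j z ++ [!z]) ∈ Λ := by
        refine h.sub hsΛ (List.IsPrefix.isInfix ⟨s' ++ [!z], ?_⟩)
        rw [e1]; simp
      obtain ⟨v, hv⟩ := ih s' (by rw [hj] at hs; simp at hs; omega) h2
      obtain ⟨b, hb⟩ := hblk j h3
      exact ⟨b :: v, by rw [e1, hv, ps_cons, hb]⟩

lemma fi_der (h : FI Λ) (hr : Run1 Λ z q) : FI (Der Λ z q) := by
  constructor
  · intro u v w huv
    have h1 : ps z q (u ++ v ++ w) ∈ Λ := huv
    show ps z q v ∈ Λ
    rw [ps_app] at h1
    obtain ⟨s, hs⟩ := ps_append z q u v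
    rw [hs] at h1
    exact h.fac _ _ _ h1
  · intro u hu v hv
    obtain ⟨s, hs⟩ := h.irr _ hu _ hv
    obtain ⟨u', hu'⟩ := ps_end z q u
    have hv' : ps z q v = (!z) :: v.flatMap (bk z q) := rfl
    have h1 : (!z) :: (s ++ [!z]) ∈ Λ := by
      refine h.fac u' _ (v.flatMap (bk z q)) ?_
      rw [hu', hv'] at hs
      simpa using hs
    obtain ⟨r, hr2⟩ := desub h hr s.length s le_rfl h1
    have hr3 : s ++ [!z] = r.flatMap (bk z q) := by
      have : (!z) :: (s ++ [!z]) = (!z) :: r.flatMap (bk z q) := hr2
      exact (List.cons.inj this).2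
    refine ⟨r, ?_⟩
    show ps z q (u ++ r ++ v) ∈ Λ
    have e1 : ps z q (u ++ r ++ v) = ps z q u ++ s ++ ps z q v := by
      rw [ps_app, ps_app, ← hr3, hv']; simp
    rw [e1]; exact hs

lemma rs_der (hq : 0 < q) (h : FI Λ) {u : List Bool} (hu : RS (Der Λ z q) u) : RS Λ (ps z q u) := by
  have h1 : ps z q (u ++ [false]) ∈ Λ := hu.1
  have h2 : ps z q (u ++ [true]) ∈ Λ := hu.2
  rw [ps_snoc] at h1 h2
  have h3 : ps z q u ++ [!z] ∈ Λ := by simpa [bk] using h1
  have h4 : ps z q u ++ [z] ∈ Λ := by
    obtain ⟨q', rfl⟩ : ∃ q', q = q' + 1 := ⟨q - 1, by omega⟩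
    refine h.sub h2 (List.IsPrefix.isInfix ⟨List.replicate q' z ++ [!z], ?_⟩)
    simp [bk, List.replicate_succ]
  cases z
  · exact ⟨h4, h3⟩
  · exact ⟨h3, h4⟩

lemma gap_der (hq : 0 < q) (h : FI Λ) (hG : Gap Λ w) :
    Gap (Der Λ z q) (fun b => (if b then q * w z else 0) + w (!z)) := by
  have key : ∀ (t v v' : List Bool), RS (Der Λ z q) (v ++ false :: t) → RS (Der Λ z q) (v' ++ true :: t) →
      min (wt (fun b => (if b then q * w z else 0) + w (!z)) (v ++ false :: t))
        (wt (fun b => (if b then q * w z else 0) + w (!z)) (v' ++ true :: t)) <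
      w (!z) + (q * w z + w (!z)) + 2 * wt (fun b => (if b then q * w z else 0) + w (!z)) t := by
    intro t v v' h1 h2
    have h3 := rs_der hq h h1
    have h4 := rs_der hq h h2
    obtain ⟨q', rfl⟩ : ∃ q', q = q' + 1 := ⟨q - 1, by omega⟩
    have e1 : ∃ X, ps z (q' + 1) (v ++ false :: t) = X ++ (!z) :: ps z (q' + 1) t := by
      obtain ⟨s, hs⟩ := ps_end z (q' + 1) v
      refine ⟨s, ?_⟩
      have : v ++ false :: t = (v ++ [false]) ++ t := by simp
      rw [this, ps_app, ps_snoc, hs]
      simp [bk, ps]
    have e2 : ∃ X, ps z (q' + 1) (v' ++ true :: t) = X ++ z :: ps z (q' + 1) t := by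
      refine ⟨ps z (q' + 1) v' ++ List.replicate q' z, ?_⟩
      have : v' ++ true :: t = (v' ++ [true]) ++ t := by simp
      rw [this, ps_app, ps_snoc]
      simp [bk, ps, List.replicate_succ']
    obtain ⟨X, hX⟩ := e1
    obtain ⟨Y, hY⟩ := e2
    have h3' := h3
    have h4' := h4
    rw [hX] at h3'
    rw [hY] at h4'
    have h5 := hG.gap (!z) (ps z (q' + 1) t) X Y h3' (by rw [Bool.not_not]; exact h4')
    rw [Bool.not_not, ← hX, ← hY, wt_ps, wt_ps, wt_ps] at h5
    have h6 : w false + w true = w z + w (!z) := by cases z <;> simp [add_comm]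
    have h7 : w z ≤ (q' + 1) * w z := Nat.le_mul_of_pos_left _ (Nat.succ_pos _)
    rw [h6] at h5
    omega
  refine ⟨fun a t v v' h1 h2 => ?_⟩
  cases a
  · have := key t v v' h1 (by simpa using h2)
    simpa using this
  · have := key t v' v (by simpa using h2) h1
    rw [min_comm] at this
    simpa using this

lemma rep_of_not (z : Bool) (u : List Bool) (hu : (!z) ∉ u) : u = List.replicate u.length z := by
  refine List.eq_replicate_iff.2 ⟨rfl, fun b hb => ?_⟩
  by_contra hc
  have : b = !z := by cases b <;> cases z <;> simp_all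
  exact hu (this ▸ hb)

theorem rev_aux (n : ℕ) : ∀ (Λ : Set (List Bool)) (w : Bool → ℕ), FI Λ → Gap Λ w → ∀ u ∈ Λ, u.length ≤ n → u.reverse ∈ Λ := by
  induction n with
  | zero =>
    intro Λ w h hG u hu hn
    have h1 : u = [] := List.length_eq_zero_iff.1 (Nat.le_zero.1 hn)
    subst h1
    simpa using hu
  | succ n ih =>
    intro Λ w h hG u hu hn
    obtain ⟨z, q, hq, hr⟩ := run_ex hG h
    by_cases he : (!z) ∈ u
    · -- extend u to both sides
      have he1 : [!z] ∈ Λ := h.sub hu (by
        obtain ⟨s, t, hst⟩ := List.append_of_mem he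
        exact ⟨s, t, by rw [hst]; simp⟩)
      obtain ⟨s, hs⟩ := h.irr _ he1 _ hu
      obtain ⟨s', hs'⟩ := h.irr _ hs _ he1
      have e1 : [!z] ++ s ++ u ++ s' ++ [!z] = (!z) :: ((s ++ u ++ s') ++ [!z]) := by simp
      rw [e1] at hs'
      obtain ⟨v, hv⟩ := desub h hr _ (s ++ u ++ s') le_rfl hs'
      have hvΛ : v ∈ Der Λ z q := by
        show ps z q v ∈ Λ
        rw [← hv]; exact hs'
      have hin : u <:+: ps z q v := by
        rw [← hv]
        exact ⟨(!z) :: s, s' ++ [!z], by simp⟩
      obtain ⟨r, hr1, hr2, hr3⟩ := shrink z q he v.length v le_rfl hin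
      have hrD : r ∈ Der Λ z q := (fi_der h hr).sub hvΛ hr1
      have h2 := ih (Der Λ z q) _ (fi_der h hr) (gap_der hq h hG) r hrD (by omega)
      have h3 : ps z q r.reverse ∈ Λ := h2
      rw [← ps_rev] at h3
      exact h.sub h3 (List.reverse_infix.2 hr2)
    · have h1 := rep_of_not z u he
      rw [h1, List.reverse_replicate, ← h1]
      exact hu

/-- **The reversal lemma.** -/
theorem rev_closed {Λ : Set (List Bool)} {w : Bool → ℕ} (h : FI Λ) (hG : Gap Λ w) {u : List Bool} (hu : u ∈ Λ) :
    u.reverse ∈ Λ :=
  rev_aux u.length Λ w h hG u hu le_rfl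

end Pool.Agent.H54.RV
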