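import Mathlib
import Pool.Agent.H54.RV.Rev
import Pool.Agent.H1.DP.Defs

set_option autoImplicit false

/-!
# Closure under reversal in the form of folder H1/DP, gap factor two (that is `κ ≤ 3/2`)
-/

namespace Pool.Agent.H54.RV

open Pool.Agent.H1.DP (RSp BL ln)

/-- `min (ln v) (ln v') < 2 ln t` and `m < w false + w true` suffice. -/
theorem clo2 {Λ : Set (List Bool)} {w : Bool → ℕ} {m : ℕ} (h : BL Λ) (hm : m < w false + w true)
    (hQ : ∀ (a : Bool) (t v v' : List Bool), RSp Λ (v ++ a :: t) → RSp Λ (v' ++ (!a) :: t) →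
      min (ln w m (v ++ a :: t)) (ln w m (v' ++ (!a) :: t)) < 2 * ln w m t)
    {u : List Bool} (hu : u ∈ Λ) : u.reverse ∈ Λ := by
  refine rev_closed (w := w) ⟨h.fac, h.irr⟩ ⟨fun a t v v' h1 h2 => ?_⟩ hu
  have h3 := hQ a t v v' h1 h2
  simp only [ln] at h3
  simp only [wt]
  omega

end Pool.Agent.H54.RV
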